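import Pool.Agent.Helper81.XP.StA
import Pool.Agent.Helper81.XP.Pj

set_option autoImplicit false

/-!
CFP: common fixed points and the trace of the commutator.
-/

open Finset
open scoped Pointwise LinearAlgebra.Projectivization

namespace Pool.Agent.Helper79.XP

open Pool.Agent.Helper81.XP

theorem cfp_key {K : Type} [Field K] (g h : SL K)
    (hg : (g : Matrix (Fin 2) (Fin 2) K) 1 0 = 0) :
    tr (ct g h) - 2 = (h : Matrix (Fin 2) (Fin 2) K) 1 0 *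
      ((g : Matrix (Fin 2) (Fin 2) K) 0 1 ^ 2 * (h : Matrix (Fin 2) (Fin 2) K) 1 0 +
        (g : Matrix (Fin 2) (Fin 2) K) 0 1 *
          ((g : Matrix (Fin 2) (Fin 2) K) 0 0 - (g : Matrix (Fin 2) (Fin 2) K) 1 1) *
          ((h : Matrix (Fin 2) (Fin 2) K) 0 0 - (h : Matrix (Fin 2) (Fin 2) K) 1 1) -
        (h : Matrix (Fin 2) (Fin 2) K) 0 1 *
          ((g : Matrix (Fin 2) (Fin 2) K) 0 0 - (g : Matrix (Fin 2) (Fin 2) K) 1 1) ^ 2) := by
  have d1 := det_eq g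
  have d2 := det_eq h
  have e1 : tr (ct g h) =
      ((g : Matrix (Fin 2) (Fin 2) K) 0 0 * (h : Matrix (Fin 2) (Fin 2) K) 0 0 +
        (g : Matrix (Fin 2) (Fin 2) K) 0 1 * (h : Matrix (Fin 2) (Fin 2) K) 1 0) *
      ((g : Matrix (Fin 2) (Fin 2) K) 1 1 * (h : Matrix (Fin 2) (Fin 2) K) 1 1 +
        (g : Matrix (Fin 2) (Fin 2) K) 0 1 * (h : Matrix (Fin 2) (Fin 2) K) 1 0) +
      ((g : Matrix (Fin 2) (Fin 2) K) 0 0 * (h : Matrix (Fin 2) (Fin 2) K) 0 1 +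
        (g : Matrix (Fin 2) (Fin 2) K) 0 1 * (h : Matrix (Fin 2) (Fin 2) K) 1 1) *
      (-(g : Matrix (Fin 2) (Fin 2) K) 1 0 * (h : Matrix (Fin 2) (Fin 2) K) 1 1 -
        (g : Matrix (Fin 2) (Fin 2) K) 0 0 * (h : Matrix (Fin 2) (Fin 2) K) 1 0) +
      ((g : Matrix (Fin 2) (Fin 2) K) 1 0 * (h : Matrix (Fin 2) (Fin 2) K) 0 0 +
        (g : Matrix (Fin 2) (Fin 2) K) 1 1 * (h : Matrix (Fin 2) (Fin 2) K) 1 0) *
      (-(g : Matrix (Fin 2) (Fin 2) K) 1 1 * (h : Matrix (Fin 2) (Fin 2) K) 0 1 -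
        (g : Matrix (Fin 2) (Fin 2) K) 0 1 * (h : Matrix (Fin 2) (Fin 2) K) 0 0) +
      ((g : Matrix (Fin 2) (Fin 2) K) 1 0 * (h : Matrix (Fin 2) (Fin 2) K) 0 1 +
        (g : Matrix (Fin 2) (Fin 2) K) 1 1 * (h : Matrix (Fin 2) (Fin 2) K) 1 1) *
      ((g : Matrix (Fin 2) (Fin 2) K) 1 0 * (h : Matrix (Fin 2) (Fin 2) K) 0 1 +
        (g : Matrix (Fin 2) (Fin 2) K) 0 0 * (h : Matrix (Fin 2) (Fin 2) K) 0 0) := by
    rw [tr_eq, ct]
    simp only [Matrix.SpecialLinearGroup.coe_mul, Matrix.SpecialLinearGroup.coe_inv,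
      Matrix.adjugate_fin_two, Matrix.mul_apply, Fin.sum_univ_two, Matrix.of_apply,
      Matrix.cons_val_zero, Matrix.cons_val_one, Matrix.cons_val', Matrix.cons_val_fin_one]
    ring
  rw [e1]
  rw [hg] at d1 ⊢
  linear_combination 2 * (g : Matrix (Fin 2) (Fin 2) K) 0 0 *
    (g : Matrix (Fin 2) (Fin 2) K) 1 1 * d2 + 2 * d1

theorem cfp_of_eq {K : Type} [Field K] (g h : SL K) (hg : g • e1 K = e1 K)
    (hh : h • e1 K = e1 K) : tr (ct g h) = 2 := by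
  have h1 := (smul_e1_eq_e1 g).1 hg
  have h2 := (smul_e1_eq_e1 h).1 hh
  have h3 := cfp_key g h h1
  rw [h2, zero_mul, sub_eq_zero] at h3
  exact h3

theorem cfp_to {K : Type} [Field K] [IsAlgClosed K] (g h : SL K) (hg : g • e1 K = e1 K)
    (ht : tr (ct g h) = 2) : ∃ ξ : Pt K, g • ξ = ξ ∧ h • ξ = ξ := by
  have h1 := (smul_e1_eq_e1 g).1 hg
  have h3 := cfp_key g h h1
  rw [ht, sub_self] at h3
  by_cases hr : (h : Matrix (Fin 2) (Fin 2) K) 1 0 = 0
  · exact ⟨e1 K, hg, (smul_e1_eq_e1 h).2 hr⟩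
  · have h4 := (mul_eq_zero.1 h3.symm).resolve_left hr
    by_cases hm : (g : Matrix (Fin 2) (Fin 2) K) 0 0 = (g : Matrix (Fin 2) (Fin 2) K) 1 1
    · have hb : (g : Matrix (Fin 2) (Fin 2) K) 0 1 = 0 := by
        rw [hm, sub_self, mul_zero, zero_mul] at h4
        have h5 : (g : Matrix (Fin 2) (Fin 2) K) 0 1 ^ 2 *
            (h : Matrix (Fin 2) (Fin 2) K) 1 0 = 0 := by
          linear_combination h4
        have h6 := (mul_eq_zero.1 h5).resolve_right hr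
        exact pow_eq_zero_iff (two_ne_zero) |>.1 h6
      obtain ⟨ξ, hξ⟩ := exists_fix h
      refine ⟨ξ, ?_, hξ⟩
      obtain ⟨v, hv, rfl⟩ : ∃ v, ∃ hv : v ≠ 0, Projectivization.mk K v hv = ξ :=
        ⟨ξ.rep, ξ.rep_nonzero, ξ.mk_rep⟩
      rw [smul_pt_fix_iff]
      refine ⟨(g : Matrix (Fin 2) (Fin 2) K) 0 0, ?_⟩
      funext i
      fin_cases i
      · simp [Matrix.mulVec, dotProduct, Fin.sum_univ_two, hb]
      · simp [Matrix.mulVec, dotProduct, Fin.sum_univ_two, h1, hm]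
    · have hnm : (g : Matrix (Fin 2) (Fin 2) K) 1 1 - (g : Matrix (Fin 2) (Fin 2) K) 0 0 ≠ 0 :=
        sub_ne_zero.2 (Ne.symm hm)
      have hv : (![(g : Matrix (Fin 2) (Fin 2) K) 0 1, (g : Matrix (Fin 2) (Fin 2) K) 1 1 -
          (g : Matrix (Fin 2) (Fin 2) K) 0 0] : Fin 2 → K) ≠ 0 := by
        intro h0
        exact hnm (congrFun h0 1)
      refine ⟨Projectivization.mk K _ hv, ?_, ?_⟩
      · rw [smul_pt_fix_iff]
        refine ⟨(g : Matrix (Fin 2) (Fin 2) K) 1 1, ?_⟩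
        funext i
        fin_cases i
        · simp [Matrix.mulVec, dotProduct, Fin.sum_univ_two]
          ring
        · simp [Matrix.mulVec, dotProduct, Fin.sum_univ_two, h1]
      · rw [smul_pt_fix_iff]
        refine ⟨((h : Matrix (Fin 2) (Fin 2) K) 1 0 * (g : Matrix (Fin 2) (Fin 2) K) 0 1 +
          (h : Matrix (Fin 2) (Fin 2) K) 1 1 * ((g : Matrix (Fin 2) (Fin 2) K) 1 1 -
            (g : Matrix (Fin 2) (Fin 2) K) 0 0)) /
          ((g : Matrix (Fin 2) (Fin 2) K) 1 1 - (g : Matrix (Fin 2) (Fin 2) K) 0 0), ?_⟩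
        funext i
        fin_cases i
        · simp only [Matrix.mulVec, dotProduct, Fin.sum_univ_two, Fin.zero_eta,
            Matrix.cons_val_zero, Matrix.cons_val_one, Pi.smul_apply, smul_eq_mul]
          rw [div_mul_eq_mul_div, eq_div_iff hnm]
          linear_combination -h4
        · simp only [Matrix.mulVec, dotProduct, Fin.sum_univ_two, Fin.mk_one,
            Matrix.cons_val_zero, Matrix.cons_val_one, Pi.smul_apply, smul_eq_mul]
          rw [div_mul_cancel₀ _ hnm]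

theorem st_CFP : ST_CFP := by
  intro K _ _ g h
  constructor
  · intro ht
    obtain ⟨ξ, hξ⟩ := exists_fix g
    obtain ⟨c, hc⟩ := exists_move1 ξ
    have h1 : (c * g * c⁻¹) • e1 K = e1 K := by
      rw [← hc]
      exact (conj_smul_eq_iff c g ξ ξ).2 hξ
    have h2 : tr (ct (c * g * c⁻¹) (c * h * c⁻¹)) = 2 := by
      rw [ct_conj, tr_conj, ht]
    obtain ⟨η, e1, e2⟩ := cfp_to _ _ h1 h2
    refine ⟨c⁻¹ • η, ?_, ?_⟩
    · rw [← conj_smul_eq_iff c g, smul_inv_smul]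
      exact e1
    · rw [← conj_smul_eq_iff c h, smul_inv_smul]
      exact e2
  · rintro ⟨ξ, e1, e2⟩
    obtain ⟨c, hc⟩ := exists_move1 ξ
    have h1 : (c * g * c⁻¹) • Pool.Agent.Helper81.XP.e1 K = Pool.Agent.Helper81.XP.e1 K := by
      rw [← hc]
      exact (conj_smul_eq_iff c g ξ ξ).2 e1
    have h2 : (c * h * c⁻¹) • Pool.Agent.Helper81.XP.e1 K = Pool.Agent.Helper81.XP.e1 K := by
      rw [← hc]
      exact (conj_smul_eq_iff c h ξ ξ).2 e2
    have h3 := cfp_of_eq _ _ h1 h2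
    rw [ct_conj, tr_conj] at h3
    exact h3

end Pool.Agent.Helper79.XP
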